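import Pool.Agent.T2h69.H15.Exp

/-!
ROOT: points on a pencil of lines. The function field of the line.
-/

set_option autoImplicit false

open FF MvPolynomial

namespace Pool.Agent.T2h69.H15

open Pool.Agent.Z15.H Pool.Agent.Z15.H.Stm

theorem isFF_ratFunc (k : Type) [Field k] : IsFF k (RatFunc k) := by
  have htr : Transcendental k (RatFunc.X : RatFunc k) := RatFunc.transcendental_X
  refine IsFF.of_finite htr ?_
  rw [RatFunc.adjoin_X]
  exact Module.finite_of_finrank_pos (by rw [IntermediateField.finrank_top]; exact one_pos)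

theorem isFF_fin {k E E2 : Type} [Field k] [Field E] [Field E2] [Algebra k E] [Algebra k E2]
    [Algebra E E2] [IsScalarTower k E E2] [h : IsFF k E] [FiniteDimensional E E2] : IsFF k E2 := by
  constructor
  · have h1 := h.ess
    exact Algebra.EssFiniteType.comp k E E2
  · have h1 := h.trdeg
    have h2 : Algebra.trdeg k E + Algebra.trdeg E E2 = Algebra.trdeg k E2 := trdeg_add_eq k E
    rw [← h2, h1, trdeg_eq_zero, add_zero]

theorem exists_minor {k κ : Type} [Field k] {p q : κ → k} (h : LinearIndependent k ![p, q]) :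
    ∃ i j, p i * q j - p j * q i ≠ 0 := by
  by_contra hc
  push Not at hc
  rw [LinearIndependent.pair_iff] at h
  have hp : p ≠ 0 := by
    rintro rfl
    have := (h 1 0 (by simp)).1
    exact one_ne_zero this
  obtain ⟨j, hj⟩ := Function.ne_iff.1 hp
  have h1 := (h (q j) (-(p j)) (by
    funext i
    have := hc i j
    simp only [Pi.add_apply, Pi.smul_apply, smul_eq_mul, Pi.zero_apply]
    linear_combination this)).2
  exact hj (neg_eq_zero.1 h1)

/-- the pencil stays nondegenerate -/
theorem pencil_ne {k κ E : Type} [Field k] [Field E] [Algebra k E] {p0 q0 : κ → k} (p1 q1 : κ → k)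
    (h : LinearIndependent k ![p0, q0]) {τ α β : E} (hτ : Transcendental k τ) (hne : α ≠ 0 ∨ β ≠ 0) :
    (fun i => α * (algebraMap k E (p0 i) + τ * algebraMap k E (p1 i)) +
        β * (algebraMap k E (q0 i) + τ * algebraMap k E (q1 i))) ≠ 0 := by
  intro hz
  obtain ⟨i, j, hij⟩ := exists_minor h
  set P : Polynomial k := (Polynomial.C (p0 i) + Polynomial.X * Polynomial.C (p1 i)) *
    (Polynomial.C (q0 j) + Polynomial.X * Polynomial.C (q1 j)) -
    (Polynomial.C (p0 j) + Polynomial.X * Polynomial.C (p1 j)) *
    (Polynomial.C (q0 i) + Polynomial.X * Polynomial.C (q1 i)) with hP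
  have hP0 : P ≠ 0 := by
    intro h0
    have h1 : P.eval 0 = 0 := by rw [h0, Polynomial.eval_zero]
    simp [hP] at h1
    exact hij h1
  have hPτ : Polynomial.aeval τ P ≠ 0 := fun h0 => hP0 (transcendental_iff.1 hτ P h0)
  have h2 : Polynomial.aeval τ P = (algebraMap k E (p0 i) + τ * algebraMap k E (p1 i)) *
      (algebraMap k E (q0 j) + τ * algebraMap k E (q1 j)) -
      (algebraMap k E (p0 j) + τ * algebraMap k E (p1 j)) *
      (algebraMap k E (q0 i) + τ * algebraMap k E (q1 i)) := by
    simp [hP]
    ring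
  rw [h2] at hPτ
  have hi := congrFun hz i
  have hj := congrFun hz j
  simp only [Pi.zero_apply] at hi hj
  have hα : α = 0 := by
    have : α * ((algebraMap k E (p0 i) + τ * algebraMap k E (p1 i)) *
      (algebraMap k E (q0 j) + τ * algebraMap k E (q1 j)) -
      (algebraMap k E (p0 j) + τ * algebraMap k E (p1 j)) *
      (algebraMap k E (q0 i) + τ * algebraMap k E (q1 i))) = 0 := by
      linear_combination (algebraMap k E (q0 j) + τ * algebraMap k E (q1 j)) * hi -
        (algebraMap k E (q0 i) + τ * algebraMap k E (q1 i)) * hj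
    rcases mul_eq_zero.1 this with h3 | h3
    · exact h3
    · exact absurd h3 hPτ
  have hβ : β = 0 := by
    have : β * ((algebraMap k E (p0 i) + τ * algebraMap k E (p1 i)) *
      (algebraMap k E (q0 j) + τ * algebraMap k E (q1 j)) -
      (algebraMap k E (p0 j) + τ * algebraMap k E (p1 j)) *
      (algebraMap k E (q0 i) + τ * algebraMap k E (q1 i))) = 0 := by
      linear_combination (algebraMap k E (p0 i) + τ * algebraMap k E (p1 i)) * hj -
        (algebraMap k E (p0 j) + τ * algebraMap k E (p1 j)) * hi
    rcases mul_eq_zero.1 this with h3 | h3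
    · exact h3
    · exact absurd h3 hPτ
  rcases hne with h3 | h3
  · exact h3 hα
  · exact h3 hβ

theorem t_ROOT : T_ROOT := by
  classical
  intro k _ _ _ κ _ d hd G hG p0 q0 p1 q1 hpq
  have hK0 : IsFF k (RatFunc k) := isFF_ratFunc k
  set L := AlgebraicClosure (RatFunc k) with hL
  set t : L := algebraMap (RatFunc k) L RatFunc.X with ht
  set H : MvPolynomial (Fin 2) L := aeval (fun i => X 0 * C (algebraMap k L (p0 i) +
    t * algebraMap k L (p1 i)) + X 1 * C (algebraMap k L (q0 i) + t * algebraMap k L (q1 i))) G with hH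
  have hHh : H.IsHomogeneous d := by
    have h1 := hG.aeval (fun i => (X 0 * C (algebraMap k L (p0 i) +
      t * algebraMap k L (p1 i)) + X 1 * C (algebraMap k L (q0 i) + t * algebraMap k L (q1 i)) :
      MvPolynomial (Fin 2) L)) (n := 1) (fun i => by
      refine IsHomogeneous.add ?_ ?_
      · exact (isHomogeneous_X _ _).mul (isHomogeneous_C _ _)
      · exact (isHomogeneous_X _ _).mul (isHomogeneous_C _ _))
    rwa [one_mul] at h1
  obtain ⟨c, hc0, hc⟩ := common_zero' (I := Fin 2) (J := Unit) (L := L) (by simp)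
    (fun _ => H) (fun _ => d) (fun _ => hd) (fun _ => hHh)
  have hc := hc ()
  have hE : FiniteDimensional (RatFunc k) (IntermediateField.adjoin (RatFunc k) (Set.range c)) :=
    IntermediateField.finiteDimensional_adjoin (fun x _ =>
      (AlgebraicClosure.isAlgebraic (RatFunc k)).isIntegral.isIntegral x)
  set E := IntermediateField.adjoin (RatFunc k) (Set.range c) with hEdef
  have hmem : ∀ i, c i ∈ E := fun i => IntermediateField.subset_adjoin _ _ ⟨i, rfl⟩
  have hFF : IsFF k E := isFF_fin (E := RatFunc k)
  have hτ : Transcendental k (algebraMap (RatFunc k) E RatFunc.X) := by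
    intro h
    exact RatFunc.transcendental_X (K := k) ((isAlgebraic_algebraMap_iff
      (algebraMap (RatFunc k) E).injective).1 h)
  have hne : (⟨c 0, hmem 0⟩ : E) ≠ 0 ∨ (⟨c 1, hmem 1⟩ : E) ≠ 0 := by
    by_contra h
    push Not at h
    apply hc0
    funext i
    fin_cases i
    · exact congrArg Subtype.val h.1
    · exact congrArg Subtype.val h.2
  refine ⟨E, inferInstance, inferInstance, hFF, algebraMap (RatFunc k) E RatFunc.X, ⟨c 0, hmem 0⟩,
    ⟨c 1, hmem 1⟩, hτ, hne, ?_, pencil_ne p1 q1 hpq hτ hne⟩
  have hST : IsScalarTower k E L := IsScalarTower.of_algebraMap_eq (fun x => rfl)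
  apply (algebraMap E L).injective
  rw [map_zero, ← hc, hH, ← aeval_algebraMap_apply]
  have h5 : (eval c : MvPolynomial (Fin 2) L →+* L) (aeval (fun i => X 0 * C (algebraMap k L (p0 i) +
    t * algebraMap k L (p1 i)) + X 1 * C (algebraMap k L (q0 i) + t * algebraMap k L (q1 i))) G) =
    aeval (fun i => (eval c : MvPolynomial (Fin 2) L →+* L) (X 0 * C (algebraMap k L (p0 i) +
    t * algebraMap k L (p1 i)) + X 1 * C (algebraMap k L (q0 i) + t * algebraMap k L (q1 i)))) G := by
    rw [aeval_def, aeval_def, hom_eval₂]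
    congr 1
    ext z
    have h6 : algebraMap k (MvPolynomial (Fin 2) L) z = C (algebraMap k L z) := rfl
    rw [RingHom.comp_apply, h6, eval_C]
  rw [h5]
  congr 2
  funext i
  simp only [Function.comp, map_add, map_mul, eval_X, eval_C]
  rfl

end Pool.Agent.T2h69.H15
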