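import Pool.Agent.T2h69.H15.Root

/-!
PL: lines in a plane.
-/

set_option autoImplicit false

open FF MvPolynomial

namespace Pool.Agent.T2h69.H15

open Pool.Agent.Z15.H Pool.Agent.Z15.H.Stm

/-- dual vectors -/
theorem exists_dual {k ι : Type} [Field k] [Fintype ι] {n : ℕ} {v : Fin n → ι → k}
    (h : LinearIndependent k v) :
    ∃ a : Fin n → ι → k, ∀ j l, ∑ i, a j i * v l i = if j = l then 1 else 0 := by
  classical
  have h1 : LinearMap.ker (Fintype.linearCombination k v) = ⊥ :=
    LinearMap.ker_eq_bot.2 (linearIndependent_iff_injective_fintypeLinearCombination.1 h)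
  obtain ⟨g, hg⟩ := LinearMap.exists_leftInverse_of_injective _ h1
  refine ⟨fun j i => g (Pi.single i 1) j, fun j l => ?_⟩
  have h2 := LinearMap.congr_fun hg (Pi.single l 1)
  rw [LinearMap.comp_apply, Fintype.linearCombination_apply_single, one_smul, LinearMap.id_apply] at h2
  have h3 : v l = ∑ i, v l i • (Pi.single i (1 : k) : ι → k) := by
    funext i
    simp [Finset.sum_apply, Pi.single_apply]
  have h4 := congrFun h2 j
  rw [h3, map_sum, Finset.sum_apply] at h4
  rw [Pi.single_apply] at h4
  rw [← h4]
  refine Finset.sum_congr rfl fun i _ => ?_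
  rw [map_smul, Pi.smul_apply, smul_eq_mul, mul_comm]

section

variable {k E : Type} [Field k] [Field E] [Algebra k E]

theorem red_cst (t : Place k E) (c : k) : t.Reg (algebraMap k E c) ∧
    t.red (algebraMap k E c) = algebraMap k t.RF c := ⟨t.reg_const c, rfl⟩

theorem red_add' {t : Place k E} {f g : E} {a b : k} (hf : t.Reg f ∧ t.red f = algebraMap k t.RF a)
    (hg : t.Reg g ∧ t.red g = algebraMap k t.RF b) :
    t.Reg (f + g) ∧ t.red (f + g) = algebraMap k t.RF (a + b) :=
  ⟨t.reg_add hf.1 hg.1, by rw [t.red_add hf.1 hg.1, hf.2, hg.2, map_add]⟩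

theorem red_mul' {t : Place k E} {f g : E} {a b : k} (hf : t.Reg f ∧ t.red f = algebraMap k t.RF a)
    (hg : t.Reg g ∧ t.red g = algebraMap k t.RF b) :
    t.Reg (f * g) ∧ t.red (f * g) = algebraMap k t.RF (a * b) :=
  ⟨t.reg_mul hf.1 hg.1, by rw [t.red_mul hf.1 hg.1, hf.2, hg.2, map_mul]⟩

theorem red_sum' {t : Place k E} {κ : Type} (s : Finset κ) {f : κ → E} {a : κ → k}
    (hf : ∀ i, t.Reg (f i) ∧ t.red (f i) = algebraMap k t.RF (a i)) :
    t.Reg (∑ i ∈ s, f i) ∧ t.red (∑ i ∈ s, f i) = algebraMap k t.RF (∑ i ∈ s, a i) := by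
  classical
  induction s using Finset.induction_on with
  | empty => simp [t.reg_zero, t.red_zero]
  | insert i s hi ih =>
    rw [Finset.sum_insert hi, Finset.sum_insert hi]
    exact red_add' (hf i) ih

theorem red_pos {t : Place k E} {f : E} (hf : 0 < t.ord f) :
    t.Reg f ∧ t.red f = algebraMap k t.RF 0 := by
  have h1 : t.Reg f := Or.inr hf.le
  exact ⟨h1, by rw [map_zero, t.red_eq_zero_iff h1]; exact Or.inr hf⟩

theorem red_one' (t : Place k E) : t.Reg (1 : E) ∧ t.red (1 : E) = algebraMap k t.RF 1 :=
  ⟨t.reg_one, by rw [t.red_one, map_one]⟩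

theorem ord_ne {t : Place k E} {f : E} (hf : t.ord f ≠ 0) : f ≠ 0 := by
  rintro rfl
  exact hf t.ord_zero

end

theorem t_PLi : T_PLi := by
  classical
  intro hSS k _ _ _ ι _ F p q r hpqr hF
  obtain ⟨a, ha⟩ := exists_dual hpqr
  have hFF : IsFF k (RatFunc k) := isFF_ratFunc k
  have htr : Transcendental k (RatFunc.X : RatFunc k) := RatFunc.transcendental_X
  have ha' : ∀ (E : Type) [Field E] [Algebra k E] (j : Fin 3) (x y z : E),
      ∑ i, algebraMap k E (a j i) * (x * algebraMap k E (p i) + y * algebraMap k E (q i) +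
        z * algebraMap k E (r i)) = ![x, y, z] j := by
    intro E _ _ j x y z
    have h0 : ∑ i, algebraMap k E (a j i) * algebraMap k E (p i) = if j = 0 then 1 else 0 := by
      have := congrArg (algebraMap k E) (ha j 0)
      simpa [map_sum, apply_ite (algebraMap k E)] using this
    have h1 : ∑ i, algebraMap k E (a j i) * algebraMap k E (q i) = if j = 1 then 1 else 0 := by
      have := congrArg (algebraMap k E) (ha j 1)
      simpa [map_sum, apply_ite (algebraMap k E)] using this
    have h2 : ∑ i, algebraMap k E (a j i) * algebraMap k E (r i) = if j = 2 then 1 else 0 := by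
      have := congrArg (algebraMap k E) (ha j 2)
      simpa [map_sum, apply_ite (algebraMap k E)] using this
    have h3 : ∑ i, algebraMap k E (a j i) * (x * algebraMap k E (p i) + y * algebraMap k E (q i) +
        z * algebraMap k E (r i)) = x * (∑ i, algebraMap k E (a j i) * algebraMap k E (p i)) +
        y * (∑ i, algebraMap k E (a j i) * algebraMap k E (q i)) +
        z * (∑ i, algebraMap k E (a j i) * algebraMap k E (r i)) := by
      rw [Finset.mul_sum, Finset.mul_sum, Finset.mul_sum, ← Finset.sum_add_distrib,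
        ← Finset.sum_add_distrib]
      exact Finset.sum_congr rfl fun i _ => by ring
    rw [h3, h0, h1, h2]
    fin_cases j <;> simp
  have hpq : LinearIndependent k ![p, q] := by
    rw [LinearIndependent.pair_iff]
    intro s t h
    have h1 : ∀ i, s * algebraMap k k (p i) + t * algebraMap k k (q i) + 0 * algebraMap k k (r i) = 0 := by
      intro i
      have := congrFun h i
      simpa using this
    have h2 := ha' k 0 s t 0
    have h3 := ha' k 1 s t 0
    simp only [h1, mul_zero, Finset.sum_const_zero] at h2 h3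
    exact ⟨h2.symm, h3.symm⟩
  have hpr : LinearIndependent k ![p, r] := by
    rw [LinearIndependent.pair_iff]
    intro s t h
    have h1 : ∀ i, s * algebraMap k k (p i) + 0 * algebraMap k k (q i) + t * algebraMap k k (r i) = 0 := by
      intro i
      have := congrFun h i
      simpa using this
    have h2 := ha' k 0 s 0 t
    have h3 := ha' k 2 s 0 t
    simp only [h1, mul_zero, Finset.sum_const_zero] at h2 h3
    exact ⟨h2.symm, h3.symm⟩
  refine hSS k ι (RatFunc k) F (fun i => algebraMap k (RatFunc k) (p i))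
    (fun i => algebraMap k (RatFunc k) (q i) + RatFunc.X * algebraMap k (RatFunc k) (r i)) ?_ ?_
    RatFunc.X htr _ _ ?_ ?_
  · rw [LinearIndependent.pair_iff]
    intro s t h
    have h1 : ∀ i, s * algebraMap k (RatFunc k) (p i) + t * algebraMap k (RatFunc k) (q i) +
        (t * RatFunc.X) * algebraMap k (RatFunc k) (r i) = 0 := by
      intro i
      have := congrFun h i
      simp only [Pi.add_apply, Pi.smul_apply, smul_eq_mul, Pi.zero_apply] at this
      rw [← this]
      ring
    have h2 := ha' (RatFunc k) 0 s t (t * RatFunc.X)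
    have h3 := ha' (RatFunc k) 1 s t (t * RatFunc.X)
    simp only [h1, mul_zero, Finset.sum_const_zero] at h2 h3
    exact ⟨h2.symm, h3.symm⟩
  · intro M _ _ _ _ s
    have h1 := hF M 1 s (s * algebraMap (RatFunc k) M RatFunc.X)
    rw [← h1]
    congr 2
    funext i
    rw [map_add, map_mul, ← IsScalarTower.algebraMap_apply, ← IsScalarTower.algebraMap_apply,
      ← IsScalarTower.algebraMap_apply]
    ring
  · intro t ht
    refine ⟨p, q, ⟨hpq, 1, 0, 0, 1, by simp, fun i => ?_, fun i => ?_⟩, ?_⟩
    · simpa using red_cst t (p i)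
    · have h1 := red_add' (red_cst t (q i)) (red_mul' (red_pos ht) (red_cst t (r i)))
      simpa using h1
    · rw [sub_self]
      exact zero_mem _
  · intro t ht
    have hX0 : (RatFunc.X : RatFunc k) ≠ 0 := RatFunc.X_ne_zero
    have ht' : 0 < t.ord (RatFunc.X : RatFunc k)⁻¹ := by
      rw [t.ord_inv]
      omega
    refine ⟨p, r, ⟨hpr, 1, 0, 0, (RatFunc.X)⁻¹, by simpa using hX0, fun i => ?_, fun i => ?_⟩, ?_⟩
    · simpa using red_cst t (p i)
    · have h1 := red_add' (red_mul' (red_pos ht') (red_cst t (q i))) (red_cst t (r i))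
      have h2 : 0 * algebraMap k (RatFunc k) (p i) + (RatFunc.X)⁻¹ * (algebraMap k (RatFunc k) (q i) +
          RatFunc.X * algebraMap k (RatFunc k) (r i)) =
          (RatFunc.X)⁻¹ * algebraMap k (RatFunc k) (q i) + algebraMap k (RatFunc k) (r i) := by
        field_simp
        ring
      rw [h2]
      simpa using h1
    · rw [sub_self]
      exact zero_mem _

end Pool.Agent.T2h69.H15
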