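import Pool.Agent.T2h69.H15.PL

/-!
PT: the pencil trick.
-/

set_option autoImplicit false

open FF MvPolynomial

namespace Pool.Agent.T2h69.H15

open Pool.Agent.Z15.H Pool.Agent.Z15.H.Stm

theorem lin_smul {k κ ι : Type} [Field k] [Fintype κ] (φ : κ → ι → k) {K : Type} [Field K]
    [Algebra k K] (c : K) (e : κ → K) (i : ι) : lin φ (fun j => c * e j) i = c * lin φ e i := by
  unfold lin
  rw [Finset.mul_sum]
  exact Finset.sum_congr rfl fun j _ => by ring

theorem lin_map {k κ ι : Type} [Field k] [Fintype κ] (φ : κ → ι → k) {K M : Type} [Field K]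
    [Algebra k K] [Field M] [Algebra k M] [Algebra K M] [IsScalarTower k K M] (e : κ → K) (i : ι) :
    lin φ (fun j => algebraMap K M (e j)) i = algebraMap K M (lin φ e i) := by
  unfold lin
  rw [map_sum]
  exact Finset.sum_congr rfl fun j _ => by rw [map_mul, ← IsScalarTower.algebraMap_apply]

theorem hom_smul {k κ : Type} [Field k] {G : MvPolynomial κ k} {d : ℕ} (hG : G.IsHomogeneous d)
    {K : Type} [Field K] [Algebra k K] (c : K) (e : κ → K) :
    aeval (fun j => c * e j) G = c ^ d * aeval e G := by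
  rw [aeval_def, aeval_def, eval₂_eq, eval₂_eq, Finset.mul_sum]
  refine Finset.sum_congr rfl fun m hm => ?_
  have h1 := hG.degree_eq_sum_deg_support hm
  rw [h1, ← Finset.prod_pow_eq_pow_sum, mul_left_comm, ← Finset.prod_mul_distrib]
  congr 1
  exact Finset.prod_congr rfl fun j _ => by rw [mul_pow]

theorem t_PTi : T_PTi := by
  classical
  intro hSS hROOT hSPEC k _ _ _ ι κ _ _ F G d hd hG φ u hF hLI p0 q0 p1 q1 hp0 hp1 c0 c1 H0 H1
  obtain ⟨E, _, _, hFF, τ, α, β, hτ, hαβ, hG0, hne⟩ := hROOT k κ d hd G hG p0 q0 p1 q1 hp0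
  set e : κ → E := fun i => α * (algebraMap k E (p0 i) + τ * algebraMap k E (p1 i)) +
        β * (algebraMap k E (q0 i) + τ * algebraMap k E (q1 i)) with he
  -- limits
  have key : ∀ (t : Place k E) (c : E) (e0 : κ → k), c ≠ 0 → e0 ≠ 0 →
      (∀ i, t.Reg (c * e i) ∧ t.red (c * e i) = algebraMap k t.RF (e0 i)) →
      eval e0 G = 0 ∧ IsLim t (lin φ e) (fun i => algebraMap k E (u i)) (lin φ e0) u := by
    intro t c e0 hc he0 hred
    have h1 := (hSPEC k κ E t (fun i => c * e i) (by
      intro h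
      apply hne
      funext i
      have := congrFun h i
      simpa [hc] using this)).2 e0 hred G
    rw [hom_smul hG, hG0, mul_zero, t.red_zero] at h1
    have h2 : eval e0 G = 0 := (algebraMap k t.RF).injective (by rw [← h1.2, map_zero])
    refine ⟨h2, ?_, c, 0, 0, 1, by simpa using hc, fun i => ?_, fun i => ?_⟩
    · have h3 := hLI k e0 he0 (by rwa [← coe_aeval_eq_eval] at h2)
      exact h3
    · have h3 : c * lin φ e i + 0 * algebraMap k E (u i) = ∑ j, c * e j * algebraMap k E (φ j i) := by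
        rw [← lin_smul, zero_mul, add_zero]
        rfl
      rw [h3]
      have h4 := red_sum' (t := t) Finset.univ (fun j => red_mul' (hred j) (red_cst t (φ j i)))
      exact h4
    · have h3 := red_cst t (u i)
      simpa using h3
  -- primitive coordinates on the pencil
  have prim : ∀ t : Place k E, ∃ (c : E) (a : Fin 2 → k), c ≠ 0 ∧ a ≠ 0 ∧
      (t.Reg (c * α) ∧ t.red (c * α) = algebraMap k t.RF (a 0)) ∧
      (t.Reg (c * β) ∧ t.red (c * β) = algebraMap k t.RF (a 1)) := by
    intro t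
    obtain ⟨c, a, hc, ha, hca⟩ := (hSPEC k (Fin 2) E t ![α, β] (by
      intro h
      rcases hαβ with h1 | h1
      · exact h1 (congrFun h 0)
      · exact h1 (congrFun h 1))).1
    exact ⟨c, a, hc, ha, hca 0, hca 1⟩
  have ne_of : ∀ (p q : κ → k), LinearIndependent k ![p, q] → ∀ a : Fin 2 → k, a ≠ 0 →
      (fun i => a 0 * p i + a 1 * q i) ≠ 0 := by
    intro p q h a ha h0
    rw [LinearIndependent.pair_iff] at h
    have h1 := h (a 0) (a 1) (by
      funext i
      exact congrFun h0 i)
    apply ha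
    funext i
    fin_cases i
    · exact h1.1
    · exact h1.2
  have mem_of : ∀ (p q : κ → k) (a : Fin 2 → k),
      (fun i => a 0 * p i + a 1 * q i) ∈ Submodule.span k {p, q} := by
    intro p q a
    rw [Submodule.mem_span_pair]
    exact ⟨a 0, a 1, rfl⟩
  refine hSS k ι E F (lin φ e) (fun i => algebraMap k E (u i)) (hLI E e hne hG0) ?_ τ hτ c0 c1 ?_ ?_
  · intro M _ _ _ _ s
    have h1 := hF M (fun j => algebraMap E M (e j)) s (by
      have h2 := aeval_algebraMap_apply M e G
      rw [hG0, map_zero] at h2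
      exact h2)
    rw [← h1]
    congr 2
    funext i
    rw [lin_map, ← IsScalarTower.algebraMap_apply]
  · intro t ht
    obtain ⟨c, a, hc, ha, h0, h1⟩ := prim t
    have h2 : ∀ i, t.Reg (c * e i) ∧ t.red (c * e i) = algebraMap k t.RF (a 0 * p0 i + a 1 * q0 i) := by
      intro i
      have h3 := red_add' (red_mul' h0 (red_add' (red_cst t (p0 i)) (red_mul' (red_pos ht)
        (red_cst t (p1 i))))) (red_mul' h1 (red_add' (red_cst t (q0 i)) (red_mul' (red_pos ht)
        (red_cst t (q1 i)))))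
      have h4 : c * e i = c * α * (algebraMap k E (p0 i) + τ * algebraMap k E (p1 i)) +
          c * β * (algebraMap k E (q0 i) + τ * algebraMap k E (q1 i)) := by
        rw [he]
        ring
      rw [h4]
      simpa using h3
    obtain ⟨h5, h6⟩ := key t c _ hc (ne_of p0 q0 hp0 a ha) h2
    exact ⟨_, _, h6, H0 _ (ne_of p0 q0 hp0 a ha) (mem_of p0 q0 a) h5⟩
  · intro t ht
    have hτ0 : τ ≠ 0 := ord_ne ht.ne
    have ht' : 0 < t.ord τ⁻¹ := by
      rw [t.ord_inv]
      omega
    obtain ⟨c, a, hc, ha, h0, h1⟩ := prim t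
    have h2 : ∀ i, t.Reg (c * τ⁻¹ * e i) ∧
        t.red (c * τ⁻¹ * e i) = algebraMap k t.RF (a 0 * p1 i + a 1 * q1 i) := by
      intro i
      have h3 := red_add' (red_mul' h0 (red_add' (red_mul' (red_pos ht') (red_cst t (p0 i)))
        (red_cst t (p1 i)))) (red_mul' h1 (red_add' (red_mul' (red_pos ht') (red_cst t (q0 i)))
        (red_cst t (q1 i))))
      have h4 : c * τ⁻¹ * e i = c * α * (τ⁻¹ * algebraMap k E (p0 i) + algebraMap k E (p1 i)) +
          c * β * (τ⁻¹ * algebraMap k E (q0 i) + algebraMap k E (q1 i)) := by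
        rw [he]
        field_simp
      rw [h4]
      simpa using h3
    obtain ⟨h5, h6⟩ := key t (c * τ⁻¹) _ (mul_ne_zero hc (inv_ne_zero hτ0)) (ne_of p1 q1 hp1 a ha) h2
    exact ⟨_, _, h6, H1 _ (ne_of p1 q1 hp1 a ha) (mem_of p1 q1 a) h5⟩

end Pool.Agent.T2h69.H15
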