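import Pool.Agent.Z15.H.Stm2

/-!
SS: specialisation to the zeros and poles of a function.
-/

set_option autoImplicit false

open FF MvPolynomial

namespace Pool.Agent.T2h69.H15

open Pool.Agent.Z15.H Pool.Agent.Z15.H.Stm

theorem t_SSi : T_SSi := by
  intro hDE hLOC hDEG k _ _ _ ι E _ _ _ _ F A B hAB hV τ hτ c0 c1 H0 H1
  obtain ⟨hL1, -, hL3⟩ := hLOC k ι E A B hAB
  choose a b hab using hL1
  obtain ⟨S, S', hS, hS', hne, hsum⟩ := hDEG k E τ hτ
  classical
  have hτ0 : τ ≠ 0 := by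
    rintro rfl
    exact hτ (isAlgebraic_zero)
  have hdisj : Disjoint S S' := by
    rw [Finset.disjoint_left]
    intro t h1 h2
    rw [hS] at h1
    rw [hS'] at h2
    omega
  have h1 := hDE k ι E F A B hAB hV τ (S ∪ S') a b hτ0 (by
    intro t
    rw [Finset.mem_union, hS, hS']
    omega) hab
  have h1' := Tor.of_rat h1
  rw [Finset.sum_union hdisj] at h1'
  have h2 : ∑ t ∈ S, t.ord τ • (line (a t) (b t) - c0) ∈ Tor F := by
    refine sum_mem fun t ht => ?_
    obtain ⟨a', b', h3, h4⟩ := H0 t ((hS t).1 ht)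
    rw [hL3 t _ _ _ _ (hab t) h3]
    exact zsmul_mem h4 _
  have h3 : ∑ t ∈ S', t.ord τ • (line (a t) (b t) - c1) ∈ Tor F := by
    refine sum_mem fun t ht => ?_
    obtain ⟨a', b', h3, h4⟩ := H1 t ((hS' t).1 ht)
    rw [hL3 t _ _ _ _ (hab t) h3]
    exact zsmul_mem h4 _
  have hpos : 0 < ∑ t ∈ S, t.ord τ := Finset.sum_pos (fun t ht => (hS t).1 ht) hne
  obtain ⟨n, hn⟩ := Int.eq_ofNat_of_zero_le hpos.le
  have hn0 : 0 < n := by
    rw [hn] at hpos
    exact_mod_cast hpos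
  refine Tor.of_nsmul hn0 ?_
  have h4 : n • (c0 - c1) = (∑ t ∈ S, t.ord τ • line (a t) (b t) + ∑ t ∈ S', t.ord τ • line (a t) (b t)) -
      ∑ t ∈ S, t.ord τ • (line (a t) (b t) - c0) - ∑ t ∈ S', t.ord τ • (line (a t) (b t) - c1) := by
    simp only [smul_sub, Finset.sum_sub_distrib, ← Finset.sum_smul]
    have h5 : ∑ t ∈ S', t.ord τ = -(n : ℤ) := by
      rw [hn] at hsum
      linarith
    rw [hn, h5]
    simp only [neg_smul, natCast_zsmul]
    abel
  rw [h4]
  exact sub_mem (sub_mem h1' h2) h3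

end Pool.Agent.T2h69.H15
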